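import Pool.Agent.H638.IB.Final

/-! Iterated intersection bodies of origin-symmetric convex bodies converge to the Euclidean ball
in the Banach-Mazur distance, uniformly over all bodies. -/

set_option autoImplicit false

open MeasureTheory Set Filter Topology Metric
open scoped Pointwise

namespace Pool.Agent.Results.MP_5ac201_gt.UniformConvergence

/-- Euclidean `n`-space. -/
abbrev E (n : ℕ) : Type := EuclideanSpace ℝ (Fin n)

/-- The closed unit ball. -/
def unitBall (n : ℕ) : Set (E n) := closedBall 0 1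

/-- Origin-symmetric convex bodies: compact, convex, with nonempty interior and `K = -K`. -/
structure IsSymConvexBody {n : ℕ} (K : Set (E n)) : Prop where
  isCompact : IsCompact K
  convex : Convex ℝ K
  interior_nonempty : (interior K).Nonempty
  neg_mem : ∀ x ∈ K, -x ∈ K

/-- The hyperplane through the origin orthogonal to `u`. -/
noncomputable abbrev hyp {n : ℕ} (u : E n) : Submodule ℝ (E n) := (ℝ ∙ u)ᗮ

/-- Lebesgue measure of the hyperplane `hyp u`. -/
noncomputable abbrev hypVol {n : ℕ} (u : E n) : Measure (hyp u) := volume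

/-- The `(n-1)`-dimensional volume of the section of `K` by the hyperplane through the origin
orthogonal to `u`. -/
noncomputable def secVol {n : ℕ} (K : Set (E n)) (u : E n) : ℝ :=
  (hypVol u {y : hyp u | (y : E n) ∈ K}).toReal

/-- The intersection body: the star body whose radial function is `secVol K` on unit vectors. -/
def interBody {n : ℕ} (K : Set (E n)) : Set (E n) :=
  {x | ∃ u : E n, ‖u‖ = 1 ∧ ∃ r : ℝ, 0 ≤ r ∧ r ≤ secVol K u ∧ x = r • u}

/-- The image of a set under an invertible linear map. -/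
def linImage {n : ℕ} (T : E n ≃ₗ[ℝ] E n) (A : Set (E n)) : Set (E n) := T '' A

/-- The dilate `l A`. -/
def dilate {n : ℕ} (l : ℝ) (A : Set (E n)) : Set (E n) := {x | ∃ a ∈ A, x = l • a}

/-- `B ⊆ T A ⊆ l B` for some invertible linear map `T`. -/
def Sandwich {n : ℕ} (A B : Set (E n)) (l : ℝ) : Prop :=
  ∃ T : E n ≃ₗ[ℝ] E n, B ⊆ linImage T A ∧ linImage T A ⊆ dilate l B

/-- The Banach-Mazur distance `inf {l ≥ 1 : B ⊆ T A ⊆ l B for some invertible linear T}`. -/
noncomputable def bmDist {n : ℕ} (A B : Set (E n)) : ℝ :=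
  sInf {l : ℝ | 1 ≤ l ∧ Sandwich A B l}

/-- The Banach-Mazur distance of `I^m K` to the Euclidean ball. -/
noncomputable def iterDist {n : ℕ} (K : Set (E n)) (m : ℕ) : ℝ :=
  bmDist (interBody^[m] K) (unitBall n)

theorem body_iff {n : ℕ} (K : Set (E n)) : IsSymConvexBody K ↔ Pool.Agent.H638.IB.Body K :=
  ⟨fun h => ⟨h.1, h.2, h.3, h.4⟩, fun h => ⟨h.1, h.2, h.3, h.4⟩⟩

theorem interBody_eq {n : ℕ} : (interBody : Set (E n) → Set (E n)) = Pool.Agent.H638.IB.IB := rfl

theorem bmDist_eq {n : ℕ} (A B : Set (E n)) : bmDist A B = Pool.Agent.H638.IB.bm A B := by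
  have h : ∀ l : ℝ, dilate l B = l • B := by
    intro l
    ext x
    simp only [dilate, mem_setOf_eq, mem_smul_set]
    exact ⟨fun ⟨a, ha, hx⟩ => ⟨a, ha, hx.symm⟩, fun ⟨a, ha, hx⟩ => ⟨a, ha, hx.symm⟩⟩
  unfold bmDist Sandwich linImage Pool.Agent.H638.IB.bm
  simp only [h]

/-- Let `n ≥ 3`. All iterated intersection bodies `I^m K` of an origin-symmetric convex body `K` of
`ℝⁿ` are origin-symmetric convex bodies; their Banach-Mazur distance to the Euclidean ball tends
to `1`, uniformly over all `K`; in particular it tends to `1` for every `K`. -/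
theorem result {n : ℕ} (hn : 3 ≤ n) :
    (∀ K : Set (E n), IsSymConvexBody K → ∀ m : ℕ, IsSymConvexBody (interBody^[m] K)) ∧
    (∀ ε : ℝ, 0 < ε → ∃ M : ℕ, ∀ m, M ≤ m → ∀ K : Set (E n), IsSymConvexBody K →
      1 ≤ iterDist K m ∧ iterDist K m ≤ 1 + ε) ∧
    ∀ K : Set (E n), IsSymConvexBody K → Tendsto (iterDist K) atTop (𝓝 1) := by
  refine ⟨fun K hK m => (body_iff _).2 ?_, fun ε hε => ?_, fun K hK => ?_⟩
  · exact Pool.Agent.H638.IB.iter_body Pool.Agent.H638.IB.IBB_final hn K ((body_iff K).1 hK) m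
  · obtain ⟨M, hM⟩ := Pool.Agent.H638.IB.main_uniform Pool.Agent.H638.IB.UNI_final hn ε hε
    refine ⟨M, fun m hm K hK => ?_⟩
    have h := hM m hm K ((body_iff K).1 hK)
    rw [iterDist, bmDist_eq]
    exact h
  · have h := Pool.Agent.H638.IB.main_tendsto Pool.Agent.H638.IB.UNI_final hn K
      ((body_iff K).1 hK)
    have e : iterDist K = fun m : ℕ => Pool.Agent.H638.IB.bm (Pool.Agent.H638.IB.IB^[m] K)
        (closedBall 0 1) := by
      funext m
      rw [iterDist, bmDist_eq]
      rfl
    rw [e]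
    exact h

end Pool.Agent.Results.MP_5ac201_gt.UniformConvergence
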